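import Mathlib

namespace Pool.Agent.Helper99

/-- `chainCount G p s I` is the number `N(s-I)` of the problem: the number of families
`(U_c)_{c in I}` of subgroups of `G` with `|U_c| = p^(s-c)` for `c in I` and
`U_c ≤ U_d` whenever `d ≤ c`. -/
noncomputable def chainCount (G : Type*) [Group G] (p s : ℕ) (I : Finset ℕ) : ℕ :=
  Nat.card {U : I → Subgroup G //
    (∀ c : I, Nat.card (U c) = p ^ (s - (c : ℕ))) ∧
    ∀ c d : I, (d : ℕ) ≤ (c : ℕ) → U c ≤ U d}

end Pool.Agent.Helper99
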