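import Mathlib

namespace Pool.Agent.Helper99

open Finset
open scoped Pointwise

section Dual

variable {H : Type*} [Group H] {p : ℕ}

instance finite_hom [Finite H] [Fact p.Prime] : Finite (H →* Multiplicative (ZMod p)) :=
  Finite.of_injective (fun f : H →* Multiplicative (ZMod p) => (f : H → Multiplicative (ZMod p)))
    DFunLike.coe_injective

/-- common kernel -/
def kerAll {ι : Type*} (f : ι → (H →* Multiplicative (ZMod p))) : Subgroup H := ⨅ i, (f i).ker

lemma mem_kerAll {ι : Type*} (f : ι → (H →* Multiplicative (ZMod p))) (x : H) :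
    x ∈ kerAll f ↔ ∀ i, f i x = 1 := by
  simp [kerAll, Subgroup.mem_iInf, MonoidHom.mem_ker]

/-- homomorphisms vanishing on `W` -/
def perp (p : ℕ) (W : Subgroup H) : Subgroup (H →* Multiplicative (ZMod p)) where
  carrier := {a | ∀ w ∈ W, a w = 1}
  one_mem' := by intro w _; simp
  mul_mem' := by
    intro a b ha hb w hw
    simp [ha w hw, hb w hw]
  inv_mem' := by
    intro a ha w hw
    simp [ha w hw]

lemma mem_perp (W : Subgroup H) (a : H →* Multiplicative (ZMod p)) :
    a ∈ perp p W ↔ ∀ w ∈ W, a w = 1 := Iff.rfl

lemma perp_anti {W W' : Subgroup H} (h : W ≤ W') : perp p W' ≤ perp p W := by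
  intro a ha w hw
  exact ha w (h hw)

lemma isPGroup_hom [Fact p.Prime] : IsPGroup p (H →* Multiplicative (ZMod p)) := by
  intro a
  refine ⟨1, ?_⟩
  ext x
  simp only [pow_one, MonoidHom.pow_apply, MonoidHom.one_apply]
  have : (a x) ^ Nat.card (Multiplicative (ZMod p)) = 1 := pow_card_eq_one'
  rw [Nat.card_congr (Multiplicative.toAdd : Multiplicative (ZMod p) ≃ ZMod p), Nat.card_zmod] at this
  rw [this]

lemma card_mul_zmod [Fact p.Prime] : Nat.card (Multiplicative (ZMod p)) = p := by
  rw [Nat.card_congr (Multiplicative.toAdd : Multiplicative (ZMod p) ≃ ZMod p), Nat.card_zmod]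

lemma index_ker_dvd [Fact p.Prime] (a : H →* Multiplicative (ZMod p)) : a.ker.index ∣ p := by
  rw [Subgroup.index_ker]
  have := Subgroup.card_subgroup_dvd_card a.range
  rwa [card_mul_zmod] at this

lemma relIndex_ker_dvd [Fact p.Prime] (a : H →* Multiplicative (ZMod p)) (V : Subgroup H) :
    a.ker.relIndex V ∣ p := by
  exact (Subgroup.relIndex_dvd_index_of_normal a.ker V).trans (index_ker_dvd a)

lemma kerAll_cons {N : ℕ} (f : Fin (N + 1) → (H →* Multiplicative (ZMod p))) :
    kerAll f = (f 0).ker ⊓ kerAll (fun i : Fin N => f i.succ) := by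
  ext x
  rw [Subgroup.mem_inf, mem_kerAll, mem_kerAll, Fin.forall_fin_succ, MonoidHom.mem_ker]

lemma card_mul_dvd_of_lt [Finite H] [Fact p.Prime] {B B' : Subgroup (H →* Multiplicative (ZMod p))}
    (h : B < B') : p * Nat.card B ∣ Nat.card B' := by
  have hB : IsPGroup p B' := isPGroup_hom.to_subgroup B'
  have h1 : B.relIndex B' * Nat.card B = Nat.card B' := by
    have := Subgroup.card_mul_index (B.subgroupOf B')
    rw [Nat.card_congr (Subgroup.subgroupOfEquivOfLe h.le).toEquiv] at this
    rw [mul_comm]; exact this
  have h2 : B.relIndex B' ≠ 1 := by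
    intro h3
    rw [Subgroup.relIndex_eq_one] at h3
    exact absurd (le_antisymm h.le h3) h.ne
  obtain ⟨n, hn⟩ := hB.index (B.subgroupOf B')
  have h4 : B.relIndex B' = p ^ n := hn
  rw [h4] at h1 h2
  have h5 : n ≠ 0 := by
    rintro rfl; exact h2 (pow_zero p)
  rw [← h1]
  exact Nat.mul_dvd_mul_right (dvd_pow_self p h5) _

lemma index_dvd_card_perp [Finite H] [Fact p.Prime] :
    ∀ {N : ℕ} (f : Fin N → (H →* Multiplicative (ZMod p))),
      (kerAll f).index ∣ Nat.card (perp p (kerAll f)) := by
  intro N
  induction N with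
  | zero =>
    intro f
    have : kerAll f = ⊤ := by
      ext x; rw [mem_kerAll]; simp
    rw [this, Subgroup.index_top]
    exact one_dvd _
  | succ N ih =>
    intro f
    set g : Fin N → (H →* Multiplicative (ZMod p)) := fun i => f i.succ with hg
    have hk := kerAll_cons f
    rw [← hg] at hk
    have hidx : (kerAll f).index = (f 0).ker.relIndex (kerAll g) * (kerAll g).index := by
      rw [hk, ← Subgroup.inf_relIndex_right, Subgroup.relIndex_mul_index inf_le_right]
    rcases (Nat.dvd_prime (Fact.out : p.Prime)).mp (relIndex_ker_dvd (f 0) (kerAll g)) with h1 | h1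
    · rw [Subgroup.relIndex_eq_one] at h1
      have : kerAll f = kerAll g := by rw [hk]; exact inf_eq_right.mpr h1
      rw [this]
      exact ih g
    · have hlt : perp p (kerAll g) < perp p (kerAll f) := by
        refine lt_of_le_of_ne (perp_anti (by rw [hk]; exact inf_le_right)) ?_
        intro h2
        have h3 : f 0 ∈ perp p (kerAll f) := by
          intro w hw
          exact (mem_kerAll f w).mp hw 0
        rw [← h2] at h3
        have h4 : kerAll g ≤ (f 0).ker := fun w hw => h3 w hw
        rw [← Subgroup.relIndex_eq_one, h1] at h4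
        exact (Fact.out : p.Prime).one_lt.ne' h4
      rw [hidx, h1]
      exact (Nat.mul_dvd_mul_left p (ih g)).trans (card_mul_dvd_of_lt hlt)

lemma exists_hom_of_lt [Finite H] [Fact p.Prime] {v : ℕ} (hH : Nat.card H = p ^ v)
    (W : Subgroup H) (hW : W ≠ ⊤) : ∃ a : H →* Multiplicative (ZMod p), a ∈ perp p W ∧ a ≠ 1 := by
  have hp : p.Prime := Fact.out
  have hPG : IsPGroup p H := IsPGroup.iff_card.mpr ⟨v, hH⟩
  obtain ⟨n, hn⟩ := IsPGroup.iff_card.mp (hPG.to_subgroup W)
  have hnv : n < v := by
    have h1 : Nat.card W < Nat.card H := by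
      refine lt_of_le_of_ne (Nat.le_of_dvd Nat.card_pos (Subgroup.card_subgroup_dvd_card W)) ?_
      intro h
      exact hW (Subgroup.eq_top_of_card_eq W h)
    rw [hn, hH] at h1
    exact (Nat.pow_lt_pow_iff_right hp.one_lt).mp h1
  obtain ⟨M, hM, hWM⟩ := Sylow.exists_subgroup_card_pow_prime_le p (m := v - 1) (n := n)
    (by rw [hH]; exact pow_dvd_pow p (by omega)) W hn (by omega)
  have hidx : M.index = p := by
    have := M.card_mul_index
    rw [hM, hH] at this
    have h2 : p ^ v = p ^ (v - 1) * p := by
      rw [← pow_succ]; congr 1; omega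
    rw [h2] at this
    exact Nat.eq_of_mul_eq_mul_left (pow_pos hp.pos _) this
  have hmin : (Nat.card H).minFac = p := by
    rw [hH]; exact hp.pow_minFac (by omega)
  have : M.Normal := Subgroup.normal_of_index_eq_minFac_card (by rw [hidx, hmin])
  have hq : Nat.card (H ⧸ M) = p := hidx
  let e : H ⧸ M ≃* Multiplicative (ZMod p) := mulEquivOfPrimeCardEq hq card_mul_zmod
  refine ⟨e.toMonoidHom.comp (QuotientGroup.mk' M), ?_, ?_⟩
  · intro w hw
    have : (QuotientGroup.mk' M) w = 1 := by
      rw [QuotientGroup.mk'_apply]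
      exact (QuotientGroup.eq_one_iff w).mpr (hWM hw)
    simp only [MonoidHom.comp_apply, this, map_one]
  · intro h
    have hMt : M = ⊤ := by
      rw [eq_top_iff]
      intro x _
      have h1 := DFunLike.congr_fun h x
      simp only [MonoidHom.comp_apply, MonoidHom.one_apply] at h1
      have h2 : (QuotientGroup.mk' M) x = 1 := by
        apply e.injective
        rw [map_one]; exact h1
      exact (QuotientGroup.eq_one_iff x).mp h2
    rw [hMt, Subgroup.index_top] at hidx
    exact hp.one_lt.ne hidx

lemma dvd_card_perp [Finite H] [Fact p.Prime] {v : ℕ} (hH : Nat.card H = p ^ v)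
    (W : Subgroup H) (hW : W ≠ ⊤) : p ∣ Nat.card (perp p W) := by
  obtain ⟨a, ha, ha1⟩ := exists_hom_of_lt hH W hW
  obtain ⟨n, hn⟩ := IsPGroup.iff_card.mp ((isPGroup_hom (H := H) (p := p)).to_subgroup (perp p W))
  rw [hn]
  apply dvd_pow_self
  rintro rfl
  rw [pow_zero] at hn
  have := (Subgroup.card_eq_one.mp hn)
  rw [this, Subgroup.mem_bot] at ha
  exact ha1 ha

open Classical in
/-- the number of `N`-tuples of homomorphisms with common kernel `W` of index `p^j` is divisible by
`p^(j-1)` -/
lemma dvd_card_kerAll [Finite H] [Fact p.Prime] [Fintype (H →* Multiplicative (ZMod p))]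
    (W : Subgroup H) {j : ℕ} (hj : 1 ≤ j)
    (hW : W.index = p ^ j) (N : ℕ) :
    p ^ (j - 1) ∣ (Finset.univ.filter
      (fun f : Fin N → (H →* Multiplicative (ZMod p)) => kerAll f = W)).card := by
  have hp : p.Prime := Fact.out
  cases N with
  | zero =>
    suffices h0 : (Finset.univ.filter
      (fun f : Fin 0 → (H →* Multiplicative (ZMod p)) => kerAll f = W)).card = 0 by
      rw [h0]; exact dvd_zero _
    rw [Finset.card_eq_zero, Finset.filter_eq_empty_iff]
    intro f _ h
    have h2 : kerAll f = ⊤ := by
      ext x; rw [mem_kerAll]; simp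
    rw [← h, h2, Subgroup.index_top] at hW
    have : 1 < p ^ j := Nat.one_lt_pow (by omega) hp.one_lt
    omega
  | succ N =>
    rw [Finset.card_eq_sum_card_fiberwise (f := fun f (i : Fin N) => f i.succ) (t := Finset.univ)
      (fun _ _ => Finset.mem_coe.mpr (Finset.mem_univ _))]
    refine Finset.dvd_sum fun g _ => ?_
    have h1 : ((Finset.univ.filter
        (fun f : Fin (N+1) → (H →* Multiplicative (ZMod p)) => kerAll f = W)).filter
        (fun f => (fun i : Fin N => f i.succ) = g)).card =
        Nat.card {a : H →* Multiplicative (ZMod p) | a.ker ⊓ kerAll g = W} := by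
      rw [Nat.card_eq_fintype_card, Fintype.card_subtype]
      refine Finset.card_bij' (fun f _ => f 0) (fun a _ => Fin.cons a g) ?_ ?_ ?_ ?_
      · intro f hf
        simp only [Finset.mem_filter, Finset.mem_univ, true_and, Set.mem_ofPred_eq] at hf ⊢
        rw [← hf.1, kerAll_cons, hf.2]
      · intro a ha
        simp only [Finset.mem_filter, Finset.mem_univ, true_and, Set.mem_ofPred_eq] at ha ⊢
        refine ⟨?_, ?_⟩
        · rw [kerAll_cons]; simpa using ha
        · funext i; simp
      · intro f hf
        simp only [Finset.mem_filter, Finset.mem_univ, true_and] at hf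
        funext i
        refine Fin.cases ?_ (fun i => ?_) i
        · simp
        · simp only [Fin.cons_succ]; rw [← hf.2]
      · intro a ha
        simp
    rw [h1]
    set T : Set (H →* Multiplicative (ZMod p)) := {a | a.ker ⊓ kerAll g = W} with hT
    by_cases hne : T.Nonempty
    · obtain ⟨a, ha⟩ := hne
      have hidx : W.index = a.ker.relIndex (kerAll g) * (kerAll g).index := by
        have ha' : a.ker ⊓ kerAll g = W := ha
        rw [← ha', ← Subgroup.inf_relIndex_right, Subgroup.relIndex_mul_index inf_le_right]
      have h2 : p ^ (j - 1) ∣ (kerAll g).index := by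
        rcases (Nat.dvd_prime hp).mp (relIndex_ker_dvd a (kerAll g)) with h3 | h3
        · rw [h3, one_mul, hW] at hidx
          rw [← hidx]; exact pow_dvd_pow p (by omega)
        · rw [h3, hW] at hidx
          have h4 : p ^ j = p * p ^ (j - 1) := by
            rw [← pow_succ']; congr 1; omega
          rw [h4] at hidx
          have := Nat.eq_of_mul_eq_mul_left hp.pos hidx
          rw [this]
      have h5 : Nat.card (perp p (kerAll g)) ∣ Nat.card T := by
        have h6 := Subgroup.card_mul_eq_card_subgroup_mul_card_quotient (perp p (kerAll g)) T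
        have h7 : T * (perp p (kerAll g) : Set (H →* Multiplicative (ZMod p))) = T := by
          ext b
          constructor
          · rintro ⟨c, hc, d, hd, rfl⟩
            have hc' : c.ker ⊓ kerAll g = W := hc
            show (c * d).ker ⊓ kerAll g = W
            rw [← hc']
            ext x
            simp only [Subgroup.mem_inf, MonoidHom.mem_ker, MonoidHom.mul_apply]
            constructor
            · rintro ⟨h8, h9⟩
              have := hd x h9
              rw [this, mul_one] at h8
              exact ⟨h8, h9⟩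
            · rintro ⟨h8, h9⟩
              have := hd x h9
              rw [this, mul_one]
              exact ⟨h8, h9⟩
          · intro hb
            exact ⟨b, hb, 1, (perp p (kerAll g)).one_mem, mul_one b⟩
        rw [h7] at h6
        exact ⟨_, h6⟩
      exact h2.trans ((index_dvd_card_perp g).trans h5)
    · rw [Set.not_nonempty_iff_eq_empty] at hne
      rw [hne]
      simp

end Dual

end Pool.Agent.Helper99
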