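import Pool.Agent.Helper99.ChainGen

namespace Pool.Agent.Helper99

open Finset

variable {G : Type*} [Group G] [Finite G]

/-- validity of a family -/
def ValidFam (p s : ℕ) (I : Finset ℕ) (U : I → Subgroup G) : Prop :=
  (∀ c : I, Nat.card (U c) = p ^ (s - (c : ℕ))) ∧
    ∀ c d : I, (d : ℕ) ≤ (c : ℕ) → U c ≤ U d

open Classical in
/-- the type of a chain -/
noncomputable def ctype (p s : ℕ) (J : Finset ℕ) (c : Finset (Subgroup G)) : Finset ℕ :=
  J.filter (fun j => ∃ U ∈ c, Nat.card U = p ^ (s - j))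

omit [Finite G] in
lemma validFam_injective {p s : ℕ} [Fact p.Prime] {I : Finset ℕ} (hI : ∀ c ∈ I, c ≤ s)
    {U : I → Subgroup G} (hU : ValidFam p s I U) : Function.Injective U := by
  intro a b hab
  have h1 := hU.1 a
  rw [hab, hU.1 b] at h1
  have h2 := Nat.pow_right_injective (Fact.out : p.Prime).two_le h1
  have := hI a a.2
  have := hI b b.2
  apply Subtype.ext
  omega

open Classical in
lemma fiber_spec {p s : ℕ} [Fact p.Prime] {J I : Finset ℕ} (hJ : ∀ c ∈ J, c ≤ s) (hIJ : I ⊆ J)
    (c : Finset (Subgroup G)) :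
    (c ∈ chs G p (J.image (fun j => s - j)) ∧ ctype p s J c = I) ↔
      ∃ U : I → Subgroup G, ValidFam p s I U ∧ Finset.univ.image U = c := by
  have hp : p.Prime := Fact.out
  constructor
  · rintro ⟨hc, hI⟩
    rw [mem_chs] at hc
    have hch : ∀ i : I, ∃ U ∈ c, Nat.card U = p ^ (s - (i : ℕ)) := by
      rintro ⟨i, hi⟩
      rw [← hI, ctype, Finset.mem_filter] at hi
      exact hi.2
    choose U hUc hUcard using hch
    refine ⟨U, ⟨hUcard, ?_⟩, ?_⟩
    · intro a b hab
      rcases hc.1 (U a) (hUc a) (U b) (hUc b) with h | h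
      · exact h
      · have h1 : Nat.card (U a) ≤ Nat.card (U b) := by
          rw [hUcard, hUcard]
          exact Nat.pow_le_pow_right hp.pos (by omega)
        have := Subgroup.eq_of_le_of_card_ge h h1
        exact this.symm.le
    · ext W
      simp only [Finset.mem_image, Finset.mem_univ, true_and]
      constructor
      · rintro ⟨i, rfl⟩; exact hUc i
      · intro hW
        obtain ⟨k, hk, hWk⟩ := hc.2 W hW
        rw [Finset.mem_image] at hk
        obtain ⟨j, hj, rfl⟩ := hk
        have hjI : j ∈ I := by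
          rw [← hI, ctype, Finset.mem_filter]
          exact ⟨hj, W, hW, hWk⟩
        refine ⟨⟨j, hjI⟩, ?_⟩
        have h1 : Nat.card (U ⟨j, hjI⟩) = Nat.card W := by rw [hUcard, hWk]
        rcases hc.1 (U ⟨j, hjI⟩) (hUc _) W hW with h | h
        · exact Subgroup.eq_of_le_of_card_ge h h1.ge
        · exact (Subgroup.eq_of_le_of_card_ge h h1.le).symm
  · rintro ⟨U, hU, rfl⟩
    refine ⟨?_, ?_⟩
    · rw [mem_chs]
      refine ⟨?_, ?_⟩
      · intro A hA B hB
        simp only [Finset.mem_image, Finset.mem_univ, true_and] at hA hB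
        obtain ⟨a, rfl⟩ := hA
        obtain ⟨b, rfl⟩ := hB
        rcases le_total (a : ℕ) (b : ℕ) with h | h
        · right; exact hU.2 b a h
        · left; exact hU.2 a b h
      · intro A hA
        simp only [Finset.mem_image, Finset.mem_univ, true_and] at hA
        obtain ⟨a, rfl⟩ := hA
        refine ⟨s - a, Finset.mem_image.mpr ⟨a, hIJ a.2, rfl⟩, hU.1 a⟩
    · ext j
      rw [ctype, Finset.mem_filter]
      constructor
      · rintro ⟨hj, A, hA, hAj⟩
        simp only [Finset.mem_image, Finset.mem_univ, true_and] at hA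
        obtain ⟨a, rfl⟩ := hA
        rw [hU.1 a] at hAj
        have h2 := Nat.pow_right_injective hp.two_le hAj
        have h3 := hJ a (hIJ a.2)
        have h4 := hJ j hj
        have h5 : (a : ℕ) = j := by
          have h2' : s - (a : ℕ) = s - j := h2
          omega
        rw [← h5]; exact a.2
      · intro hj
        exact ⟨hIJ hj, U ⟨j, hj⟩, Finset.mem_image_of_mem _ (Finset.mem_univ _), hU.1 _⟩

open Classical in
lemma card_fiber {p s : ℕ} [Fact p.Prime] {J I : Finset ℕ} (hJ : ∀ c ∈ J, c ≤ s) (hIJ : I ⊆ J) :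
    ((chs G p (J.image (fun j => s - j))).filter (fun c => ctype p s J c = I)).card =
      chainCount G p s I := by
  unfold chainCount
  rw [← Fintype.card_coe, ← Nat.card_eq_fintype_card]
  symm
  refine Nat.card_congr (Equiv.ofBijective
    (fun U => ⟨Finset.univ.image U.1, ?_⟩) ⟨?_, ?_⟩)
  · rw [Finset.mem_filter, fiber_spec hJ hIJ]
    exact ⟨U.1, U.2, rfl⟩
  · rintro ⟨U, hU⟩ ⟨W, hW⟩ h
    have h1 : Finset.univ.image U = Finset.univ.image W := congrArg Subtype.val h
    apply Subtype.ext
    funext i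
    have h2 : U i ∈ Finset.univ.image W := by
      rw [← h1]; exact Finset.mem_image_of_mem _ (Finset.mem_univ _)
    simp only [Finset.mem_image, Finset.mem_univ, true_and] at h2
    obtain ⟨j, hj⟩ := h2
    have h3 := hU.1 i
    rw [← hj, hW.1 j] at h3
    have h4 := Nat.pow_right_injective (Fact.out : p.Prime).two_le h3
    have h5 := hJ i (hIJ i.2)
    have h6 := hJ j (hIJ j.2)
    have h7 : j = i := by
      apply Subtype.ext
      have h4' : s - (j : ℕ) = s - (i : ℕ) := h4
      omega
    rw [h7] at hj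
    exact hj.symm
  · rintro ⟨c, hc⟩
    rw [Finset.mem_filter, fiber_spec hJ hIJ] at hc
    obtain ⟨U, hU, hUc⟩ := hc
    exact ⟨⟨U, hU⟩, Subtype.ext hUc⟩

open Classical in
theorem EK_top_eq {p s : ℕ} [Fact p.Prime] {J : Finset ℕ} (hJ : ∀ c ∈ J, c ≤ s) :
    EK p (J.image (fun j => s - j)) (⊤ : Subgroup G) =
      ∑ I ∈ J.powerset, (-1 : ℤ) ^ I.card * (chainCount G p s I : ℤ) := by
  have hEtop : EK p (J.image (fun j => s - j)) (⊤ : Subgroup G) =
      ∑ c ∈ chs G p (J.image (fun j => s - j)), (-1 : ℤ) ^ c.card := by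
    unfold EK
    congr 1
    rw [Finset.filter_eq_self]
    intro c _ U _
    exact le_top
  rw [hEtop, ← Finset.sum_fiberwise_of_maps_to (g := ctype p s J) (t := J.powerset)
    (fun c _ => Finset.mem_powerset.mpr (Finset.filter_subset _ _))]
  refine Finset.sum_congr rfl fun I hI => ?_
  rw [Finset.mem_powerset] at hI
  rw [Finset.sum_congr rfl (g := fun _ => (-1 : ℤ) ^ I.card)]
  · rw [Finset.sum_const, nsmul_eq_mul, card_fiber hJ hI, mul_comm]
  · intro c hc
    rw [Finset.mem_filter, fiber_spec hJ hI] at hc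
    obtain ⟨U, hU, rfl⟩ := hc
    rw [Finset.card_image_of_injective _ (validFam_injective (fun c hc => hJ c (hI hc)) hU)]
    simp

omit [Finite G] in
lemma chainCount_empty (p s : ℕ) : chainCount G p s ∅ = 1 := by
  unfold chainCount
  rw [Nat.card_eq_one_iff_unique]
  refine ⟨⟨?_⟩, ⟨⟨fun i => absurd i.2 (Finset.notMem_empty _), ?_, ?_⟩⟩⟩
  · rintro ⟨U, hU⟩ ⟨W, hW⟩
    apply Subtype.ext
    funext i
    exact absurd i.2 (Finset.notMem_empty _)
  · intro i; exact absurd i.2 (Finset.notMem_empty _)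
  · intro i; exact absurd i.2 (Finset.notMem_empty _)

/-- the main congruence -/
theorem chain_congruence {p t n : ℕ} (hp : p.Prime) (hG : Nat.card G = p ^ t * n) (hn : ¬ p ∣ n)
    {s : ℕ} (hs : s ≤ t) (J : Finset ℕ) (hJs : ∀ c ∈ J, c ≤ s) :
    (∑ I ∈ J.powerset.filter (fun I => I.Nonempty),
      (-1 : ℤ) ^ (I.card + 1) * (chainCount G p s I : ℤ)) ≡ 1 [ZMOD (p : ℤ) ^ J.card] := by
  have : Fact p.Prime := ⟨hp⟩
  have h1 := dvd_EK_top hG hn (J.image (fun j => s - j)) (by
    intro k hk
    rw [Finset.mem_image] at hk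
    obtain ⟨j, _, rfl⟩ := hk
    omega)
  rw [EK_top_eq hJs] at h1
  have hcard : (J.image (fun j => s - j)).card = J.card := by
    apply Finset.card_image_of_injOn
    intro a ha b hb hab
    have := hJs a ha
    have := hJs b hb
    have hab' : s - a = s - b := hab
    omega
  rw [hcard] at h1
  have h2 : ∑ I ∈ J.powerset, (-1 : ℤ) ^ I.card * (chainCount G p s I : ℤ) =
      1 - ∑ I ∈ J.powerset.filter (fun I => I.Nonempty),
        (-1 : ℤ) ^ (I.card + 1) * (chainCount G p s I : ℤ) := by
    rw [← Finset.sum_filter_add_sum_filter_not J.powerset (fun I => I.Nonempty)]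
    have h3 : J.powerset.filter (fun I => ¬ I.Nonempty) = {∅} := by
      ext I
      simp only [Finset.mem_filter, Finset.mem_powerset, Finset.not_nonempty_iff_eq_empty,
        Finset.mem_singleton]
      constructor
      · rintro ⟨_, h⟩; exact h
      · rintro rfl; exact ⟨Finset.empty_subset _, rfl⟩
    rw [h3, Finset.sum_singleton, chainCount_empty]
    have h4 : ∑ I ∈ J.powerset.filter (fun I => I.Nonempty),
        (-1 : ℤ) ^ (I.card + 1) * (chainCount G p s I : ℤ) =
        - ∑ I ∈ J.powerset.filter (fun I => I.Nonempty),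
        (-1 : ℤ) ^ I.card * (chainCount G p s I : ℤ) := by
      rw [← Finset.sum_neg_distrib]
      refine Finset.sum_congr rfl fun I _ => ?_
      rw [pow_succ]; ring
    rw [h4]
    simp only [Finset.card_empty, pow_zero, Nat.cast_one, mul_one]
    ring
  rw [h2] at h1
  exact Int.modEq_iff_dvd.mpr h1

end Pool.Agent.Helper99
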