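import Pool.Agent.Helper99.ChainMain

namespace Pool.Agent.Helper99

open Finset

variable {G : Type*} [Group G] [Finite G]

omit [Finite G] in
open Classical in
lemma dvd_sum_of_orbit {X : Type*} [Fintype X] [MulAction G X] (F : X → ℤ) (d : ℤ)
    (hF : ∀ (g : G) (x : X), F (g • x) = F x)
    (hd : ∀ x : X, d ∣ ((MulAction.stabilizer G x).index : ℤ) * F x) : d ∣ ∑ x, F x := by
  let _ : Fintype (MulAction.orbitRel.Quotient G X) := Fintype.ofFinite _
  rw [← Finset.sum_fiberwise (s := Finset.univ)
      (g := fun x : X => (Quotient.mk (MulAction.orbitRel G X) x : MulAction.orbitRel.Quotient G X))]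
  refine Finset.dvd_sum fun q _ => ?_
  induction q using Quotient.inductionOn with
  | _ x0 =>
  have hmem : ∀ x : X, x ∈ Finset.univ.filter (fun x : X =>
      (Quotient.mk (MulAction.orbitRel G X) x : MulAction.orbitRel.Quotient G X) =
        Quotient.mk (MulAction.orbitRel G X) x0) ↔ x ∈ MulAction.orbit G x0 := by
    intro x
    simp only [Finset.mem_filter, Finset.mem_univ, true_and]
    constructor
    · intro h
      exact MulAction.orbitRel_apply.mp (Quotient.exact h)
    · intro h
      exact Quotient.sound (MulAction.orbitRel_apply.mpr h)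
  rw [Finset.sum_congr rfl (g := fun _ => F x0)]
  · rw [Finset.sum_const, nsmul_eq_mul]
    have hcard : (Finset.univ.filter (fun x : X =>
      (Quotient.mk (MulAction.orbitRel G X) x : MulAction.orbitRel.Quotient G X) =
        Quotient.mk (MulAction.orbitRel G X) x0)).card = (MulAction.stabilizer G x0).index := by
      rw [MulAction.index_stabilizer, ← Set.ncard_coe_finset]
      congr 1
      ext x
      rw [Finset.mem_coe, hmem]
    rw [hcard]
    exact hd x0
  · intro x hx
    rw [hmem] at hx
    obtain ⟨g, rfl⟩ := hx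
    exact hF g x0

open Classical in
theorem dvd_EK_top {p t n : ℕ} [Fact p.Prime] (hG : Nat.card G = p ^ t * n) (hn : ¬ p ∣ n)
    (K : Finset ℕ) (hK : ∀ k ∈ K, k ≤ t) : (p : ℤ) ^ K.card ∣ EK p K (⊤ : Subgroup G) := by
  have hp : p.Prime := Fact.out
  let P : Sylow p G := default
  set M := Nat.totient (p ^ K.card) with hM
  have hMpos : 0 < M := Nat.totient_pos.mpr (pow_pos hp.pos _)
  let _ : Fintype (Fin M → G ⧸ (P : Subgroup G)) := Fintype.ofFinite _
  have hPcard : Nat.card (P : Subgroup G) = p ^ t := by
    have hm := P.card_eq_multiplicity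
    rw [hm, hG]
    congr 1
    have hn0 : n ≠ 0 := by rintro rfl; exact hn (dvd_zero p)
    rw [Nat.factorization_mul (pow_ne_zero _ hp.ne_zero) hn0]
    simp [hp.factorization_self, Nat.factorization_eq_zero_of_not_dvd hn]
  have hPidx : (P : Subgroup G).index = n := by
    have h1 := (P : Subgroup G).card_mul_index
    rw [hPcard, hG] at h1
    exact Nat.eq_of_mul_eq_mul_left (pow_pos hp.pos _) h1
  have hsum := sum_EK (p := p) (K := K)
    (fun x : Fin M → G ⧸ (P : Subgroup G) => MulAction.stabilizer G x)
  -- each coefficient is 1 modulo p^|K|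
  have hcoef : ∀ c ∈ chs G p K, ((Finset.univ.filter (fun x : Fin M → G ⧸ (P : Subgroup G) =>
      ∀ U ∈ c, U ≤ MulAction.stabilizer G x)).card : ℤ) ≡ 1 [ZMOD (p : ℤ) ^ K.card] := by
    intro c hc
    obtain ⟨U, hUp, hUc⟩ : ∃ U : Subgroup G, IsPGroup p U ∧
        ∀ x : Fin M → G ⧸ (P : Subgroup G), (∀ W ∈ c, W ≤ MulAction.stabilizer G x) ↔
          ∀ i, x i ∈ MulAction.fixedPoints U (G ⧸ (P : Subgroup G)) := by
      rcases c.eq_empty_or_nonempty with rfl | hne
      · refine ⟨⊥, IsPGroup.of_bot, ?_⟩
        intro x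
        simp only [Finset.notMem_empty, false_implies, implies_true, true_iff]
        intro i
        rw [MulAction.mem_fixedPoints]
        rintro ⟨g, hg⟩
        rw [Subgroup.mem_bot] at hg
        subst hg
        exact one_smul _ _
      · obtain ⟨U, hU, hmax⟩ := chain_top hc hne
        obtain ⟨k, hk, hUk⟩ := (mem_chs.mp hc).2 U hU
        refine ⟨U, IsPGroup.iff_card.mpr ⟨k, hUk⟩, ?_⟩
        intro x
        constructor
        · intro h i
          rw [MulAction.mem_fixedPoints]
          rintro ⟨g, hg⟩
          have := h U hU hg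
          rw [MulAction.mem_stabilizer_iff] at this
          exact congrFun this i
        · intro h W hW g hg
          rw [MulAction.mem_stabilizer_iff]
          funext i
          exact MulAction.mem_fixedPoints.mp (h i) ⟨g, hmax W hW hg⟩
    have h1 : (Finset.univ.filter (fun x : Fin M → G ⧸ (P : Subgroup G) =>
      ∀ U ∈ c, U ≤ MulAction.stabilizer G x)).card =
        (Nat.card (MulAction.fixedPoints U (G ⧸ (P : Subgroup G)))) ^ M := by
      rw [Finset.filter_congr (fun x _ => hUc x), ← Fintype.card_subtype,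
        ← Nat.card_eq_fintype_card,
        Nat.card_congr (Equiv.subtypePiEquivPi
          (p := fun _ a => a ∈ MulAction.fixedPoints U (G ⧸ (P : Subgroup G))))]
      rw [Nat.card_pi, Finset.prod_const, Finset.card_univ, Fintype.card_fin]
    have h2 : Nat.card (MulAction.fixedPoints U (G ⧸ (P : Subgroup G))) ≡ n [MOD p] := by
      have := hUp.card_modEq_card_fixedPoints (G ⧸ (P : Subgroup G))
      have h3 : Nat.card (G ⧸ (P : Subgroup G)) = n := hPidx
      rw [h3] at this
      exact this.symm
    have h3 : Nat.Coprime (Nat.card (MulAction.fixedPoints U (G ⧸ (P : Subgroup G)))) (p ^ K.card) := by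
      apply Nat.Coprime.pow_right
      rw [Nat.coprime_comm, Nat.Prime.coprime_iff_not_dvd hp]
      intro h
      apply hn
      exact (Nat.modEq_zero_iff_dvd.mp (h2.symm.trans (Nat.modEq_zero_iff_dvd.mpr h)))
    have h4 := Nat.ModEq.pow_totient h3
    rw [h1]
    have h5 := (Int.natCast_modEq_iff).mpr h4
    rw [Nat.cast_pow p] at h5
    exact_mod_cast h5
  -- compare
  have hEtop : EK p K (⊤ : Subgroup G) = ∑ c ∈ chs G p K, (-1 : ℤ) ^ c.card := by
    unfold EK
    congr 1
    rw [Finset.filter_eq_self]
    intro c _ U _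
    exact le_top
  have hcong : (p : ℤ) ^ K.card ∣ EK p K (⊤ : Subgroup G) -
      ∑ x : Fin M → G ⧸ (P : Subgroup G), EK p K (MulAction.stabilizer G x) := by
    rw [hEtop, hsum, ← Finset.sum_sub_distrib]
    refine Finset.dvd_sum fun c hc => ?_
    have h1 := (hcoef c hc).dvd
    have h2 : (-1 : ℤ) ^ c.card - (-1 : ℤ) ^ c.card *
        ((Finset.univ.filter (fun x : Fin M → G ⧸ (P : Subgroup G) =>
      ∀ U ∈ c, U ≤ MulAction.stabilizer G x)).card : ℤ) = (-1 : ℤ) ^ c.card *
        (1 - ((Finset.univ.filter (fun x : Fin M → G ⧸ (P : Subgroup G) =>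
      ∀ U ∈ c, U ≤ MulAction.stabilizer G x)).card : ℤ)) := by ring
    rw [h2]
    exact Dvd.dvd.mul_left h1 _
  have hmain : (p : ℤ) ^ K.card ∣
      ∑ x : Fin M → G ⧸ (P : Subgroup G), EK p K (MulAction.stabilizer G x) := by
    refine dvd_sum_of_orbit (G := G) _ _ ?_ ?_
    · intro g x
      rw [MulAction.stabilizer_smul_eq_stabilizer_map_conj]
      exact EK_map _ (MulAut.conj g)
    · intro x
      have hpg : IsPGroup p (MulAction.stabilizer G x) := by
        have h1 : MulAction.stabilizer G x ≤ MulAction.stabilizer G (x ⟨0, hMpos⟩) := by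
          intro g hg
          rw [MulAction.mem_stabilizer_iff] at hg ⊢
          exact congrFun hg ⟨0, hMpos⟩
        refine IsPGroup.to_le ?_ h1
        obtain ⟨a, ha⟩ := QuotientGroup.mk_surjective (x ⟨0, hMpos⟩)
        rw [← ha]
        have h2 : ((a : G ⧸ (P : Subgroup G))) = a • ((1 : G) : G ⧸ (P : Subgroup G)) := by
          rw [MulAction.Quotient.smul_coe]; simp
        rw [h2, MulAction.stabilizer_smul_eq_stabilizer_map_conj, MulAction.stabilizer_quotient]
        exact P.isPGroup'.map _
      obtain ⟨v, hv⟩ := IsPGroup.iff_card.mp hpg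
      have h1 := dvd_EK_pgroup K v _ hv
      have h2 := (MulAction.stabilizer G x).card_mul_index
      rw [hv, hG] at h2
      have hvt : v ≤ t := by
        have h3 : p ^ v ∣ p ^ t * n := ⟨_, h2.symm⟩
        have h4 : Nat.Coprime (p ^ v) n :=
          Nat.Coprime.pow_left v ((Nat.Prime.coprime_iff_not_dvd hp).mpr hn)
        have h5 := h4.dvd_of_dvd_mul_right h3
        exact (Nat.pow_dvd_pow_iff_le_right hp.one_lt).mp h5
      have h3 : p ^ (t - v) ∣ (MulAction.stabilizer G x).index := by
        have h4 : p ^ t * n = p ^ v * (p ^ (t - v) * n) := by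
          rw [← mul_assoc, ← pow_add]; congr 2; omega
        rw [h4] at h2
        have h5 := Nat.eq_of_mul_eq_mul_left (pow_pos hp.pos _) h2
        rw [h5]
        exact Dvd.intro _ rfl
      have h4 : K.card ≤ (t - v) + (K.filter (· ≤ v)).card := by
        have h5 : K ⊆ Finset.Ioc v t ∪ K.filter (· ≤ v) := by
          intro x hx
          simp only [Finset.mem_filter, Finset.mem_union, Finset.mem_Ioc]
          by_cases h : x ≤ v
          · right; exact ⟨hx, h⟩
          · left; exact ⟨by omega, hK x hx⟩
        refine (Finset.card_le_card h5).trans ((Finset.card_union_le _ _).trans ?_)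
        rw [Nat.card_Ioc]
      refine (pow_dvd_pow (p : ℤ) h4).trans ?_
      rw [pow_add]
      refine mul_dvd_mul ?_ h1
      exact_mod_cast h3
  have := dvd_add hcong hmain
  simpa using this

end Pool.Agent.Helper99
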