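import Pool.Agent.Helper99.ChainDefs

namespace Pool.Agent.Helper99

open Finset

variable {G : Type*} [Group G] [Finite G]

/-- chains of subgroups with orders in `p^K` -/
noncomputable def chs (G : Type*) [Group G] [Finite G] (p : ℕ) (K : Finset ℕ) :
    Finset (Finset (Subgroup G)) :=
  Set.Finite.toFinset (s := {c : Finset (Subgroup G) |
    (∀ U ∈ c, ∀ V ∈ c, U ≤ V ∨ V ≤ U) ∧ ∀ U ∈ c, ∃ k ∈ K, Nat.card U = p ^ k})
    (Set.toFinite _)

lemma mem_chs {p : ℕ} {K : Finset ℕ} {c : Finset (Subgroup G)} :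
    c ∈ chs G p K ↔ (∀ U ∈ c, ∀ V ∈ c, U ≤ V ∨ V ≤ U) ∧ ∀ U ∈ c, ∃ k ∈ K, Nat.card U = p ^ k := by
  simp [chs]

open Classical in
/-- signed number of chains inside `V` -/
noncomputable def EK (p : ℕ) (K : Finset ℕ) (V : Subgroup G) : ℤ :=
  ∑ c ∈ (chs G p K).filter (fun c => ∀ U ∈ c, U ≤ V), (-1 : ℤ) ^ c.card

open Classical in
lemma sum_EK {p : ℕ} {K : Finset ℕ} {X : Type*} [Fintype X] (κ : X → Subgroup G) :
    ∑ x, EK p K (κ x) = ∑ c ∈ chs G p K, (-1 : ℤ) ^ c.card *
      ((Finset.univ.filter (fun x : X => ∀ U ∈ c, U ≤ κ x)).card : ℤ) := by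
  simp only [EK, Finset.sum_filter]
  rw [Finset.sum_comm]
  refine Finset.sum_congr rfl fun c _ => ?_
  rw [← Finset.sum_filter, Finset.sum_const, nsmul_eq_mul, mul_comm]

open Classical in
/-- the cone: if `|V| = p^v` with `v ∈ K` then the signed count vanishes -/
lemma EK_eq_zero {p : ℕ} {K : Finset ℕ} {V : Subgroup G} {v : ℕ} (hv : v ∈ K)
    (hV : Nat.card V = p ^ v) : EK p K V = 0 := by
  unfold EK
  refine Finset.sum_involution (fun c _ => if V ∈ c then c.erase V else insert V c) ?_ ?_ ?_ ?_
  · intro c hc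
    by_cases h : V ∈ c
    · simp only [h, if_true]
      rw [Finset.card_erase_of_mem h]
      have : 0 < c.card := Finset.card_pos.mpr ⟨V, h⟩
      obtain ⟨m, hm⟩ : ∃ m, c.card = m + 1 := ⟨c.card - 1, by omega⟩
      rw [hm]; simp [pow_succ]
    · simp only [h, if_false]
      rw [Finset.card_insert_of_notMem h]
      simp [pow_succ]
  · intro c hc _
    by_cases h : V ∈ c
    · simp only [h, if_true]
      intro h2
      have := Finset.notMem_erase V c
      rw [h2] at this
      exact this h
    · simp only [h, if_false]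
      intro h2
      apply h
      rw [← h2]
      exact Finset.mem_insert_self _ _
  · intro c hc
    simp only [Finset.mem_filter, mem_chs] at hc ⊢
    by_cases h : V ∈ c
    · simp only [h, if_true]
      refine ⟨⟨fun U hU W hW => hc.1.1 U (Finset.mem_of_mem_erase hU) W (Finset.mem_of_mem_erase hW),
        fun U hU => hc.1.2 U (Finset.mem_of_mem_erase hU)⟩, fun U hU => hc.2 U (Finset.mem_of_mem_erase hU)⟩
    · simp only [h, if_false]
      refine ⟨⟨?_, ?_⟩, ?_⟩
      · intro U hU W hW
        rw [Finset.mem_insert] at hU hW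
        rcases hU with rfl | hU
        · rcases hW with rfl | hW
          · left; exact le_rfl
          · right; exact hc.2 W hW
        · rcases hW with rfl | hW
          · left; exact hc.2 U hU
          · exact hc.1.1 U hU W hW
      · intro U hU
        rw [Finset.mem_insert] at hU
        rcases hU with rfl | hU
        · exact ⟨v, hv, hV⟩
        · exact hc.1.2 U hU
      · intro U hU
        rw [Finset.mem_insert] at hU
        rcases hU with rfl | hU
        · exact le_rfl
        · exact hc.2 U hU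
  · intro c hc
    by_cases h : V ∈ c
    · simp [h]
    · simp [h]

open Classical in
/-- invariance under automorphisms of `G` -/
lemma EK_map {p : ℕ} {K : Finset ℕ} (V : Subgroup G) (φ : G ≃* G) :
    EK p K (V.map φ.toMonoidHom) = EK p K V := by
  unfold EK
  symm
  refine Finset.sum_bij' (fun c _ => c.image (Subgroup.map φ.toMonoidHom))
    (fun c _ => c.image (Subgroup.map φ.symm.toMonoidHom)) ?_ ?_ ?_ ?_ ?_
  · intro c hc
    simp only [Finset.mem_filter, mem_chs, Finset.mem_image] at hc ⊢
    refine ⟨⟨?_, ?_⟩, ?_⟩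
    · rintro _ ⟨U, hU, rfl⟩ _ ⟨W, hW, rfl⟩
      rcases hc.1.1 U hU W hW with h | h
      · left; exact Subgroup.map_mono h
      · right; exact Subgroup.map_mono h
    · rintro _ ⟨U, hU, rfl⟩
      obtain ⟨k, hk, h⟩ := hc.1.2 U hU
      exact ⟨k, hk, by rw [← h]; exact Nat.card_congr (U.equivMapOfInjective _ φ.injective).symm.toEquiv⟩
    · rintro _ ⟨U, hU, rfl⟩
      exact Subgroup.map_mono (hc.2 U hU)
  · intro c hc
    simp only [Finset.mem_filter, mem_chs, Finset.mem_image] at hc ⊢
    refine ⟨⟨?_, ?_⟩, ?_⟩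
    · rintro _ ⟨U, hU, rfl⟩ _ ⟨W, hW, rfl⟩
      rcases hc.1.1 U hU W hW with h | h
      · left; exact Subgroup.map_mono h
      · right; exact Subgroup.map_mono h
    · rintro _ ⟨U, hU, rfl⟩
      obtain ⟨k, hk, h⟩ := hc.1.2 U hU
      exact ⟨k, hk, by rw [← h]; exact Nat.card_congr (U.equivMapOfInjective _ φ.symm.injective).symm.toEquiv⟩
    · rintro _ ⟨U, hU, rfl⟩
      rw [Subgroup.map_le_iff_le_comap]
      intro x hx
      have := hc.2 U hU hx
      obtain ⟨y, hy, rfl⟩ := this
      simpa using hy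
  · intro c hc
    rw [Finset.image_image]
    have h : (Subgroup.map (φ.symm).toMonoidHom ∘ Subgroup.map φ.toMonoidHom : Subgroup G → Subgroup G) = id := by
      funext U; ext x; simp [Subgroup.map_map]
    rw [h, Finset.image_id]
  · intro c hc
    rw [Finset.image_image]
    have h : (Subgroup.map φ.toMonoidHom ∘ Subgroup.map (φ.symm).toMonoidHom : Subgroup G → Subgroup G) = id := by
      funext U; ext x; simp [Subgroup.map_map]
    rw [h, Finset.image_id]
  · intro c hc
    rw [Finset.card_image_of_injective]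
    exact Subgroup.map_injective φ.injective

end Pool.Agent.Helper99
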