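import Pool.Agent.Helper99.ChainLemmas
import Pool.Agent.Helper99.ChainDual

namespace Pool.Agent.Helper99

open Finset

variable {G : Type*} [Group G] [Finite G]

/-- top element of a chain -/
lemma chain_top {p : ℕ} {K : Finset ℕ} {c : Finset (Subgroup G)} (hc : c ∈ chs G p K)
    (hne : c.Nonempty) : ∃ U ∈ c, ∀ W ∈ c, W ≤ U := by
  rw [mem_chs] at hc
  obtain ⟨U, hU, hmax⟩ := c.exists_max_image (fun U : Subgroup G => Nat.card U) hne
  refine ⟨U, hU, fun W hW => ?_⟩
  rcases hc.1 U hU W hW with h | h
  · have := Subgroup.eq_of_le_of_card_ge h (hmax W hW)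
    rw [this]
  · exact h

lemma card_filter_le_aux (K : Finset ℕ) {v j : ℕ} (hv : v ∉ K) (hj : 1 ≤ j) (hjv : j ≤ v) :
    (K.filter (· ≤ v)).card ≤ (j - 1) + (K.filter (· ≤ v - j)).card := by
  have h : K.filter (· ≤ v) ⊆ Finset.Ioo (v - j) v ∪ K.filter (· ≤ v - j) := by
    intro x hx
    simp only [Finset.mem_filter, Finset.mem_union, Finset.mem_Ioo] at hx ⊢
    by_cases h : x ≤ v - j
    · right; exact ⟨hx.1, h⟩
    · left
      refine ⟨by omega, lt_of_le_of_ne hx.2 ?_⟩
      rintro rfl; exact hv hx.1
  refine (Finset.card_le_card h).trans ((Finset.card_union_le _ _).trans ?_)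
  rw [Nat.card_Ioo]
  omega

open Classical in
/-- the case of `p`-groups -/
theorem dvd_EK_pgroup {p : ℕ} [Fact p.Prime] (K : Finset ℕ) :
    ∀ (v : ℕ) (V : Subgroup G), Nat.card V = p ^ v →
      ((p : ℤ) ^ (K.filter (· ≤ v)).card ∣ EK p K V) := by
  intro v
  induction v using Nat.strong_induction_on with
  | _ v ih =>
  intro V hV
  have hp : p.Prime := Fact.out
  by_cases hv : v ∈ K
  · rw [EK_eq_zero hv hV]; exact dvd_zero _
  rcases Nat.eq_zero_or_pos v with rfl | hvpos
  · have : K.filter (· ≤ 0) = ∅ := by
      rw [Finset.filter_eq_empty_iff]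
      intro x hx h
      have : x = 0 := by omega
      exact hv (this ▸ hx)
    rw [this]; simp
  set N := (K.filter (· ≤ v)).card with hN
  let _ : Fintype (V →* Multiplicative (ZMod p)) := Fintype.ofFinite _
  let _ : Fintype (Subgroup V) := Fintype.ofFinite _
  set κ : (Fin N → (V →* Multiplicative (ZMod p))) → Subgroup G :=
    fun f => (kerAll f).map V.subtype with hκ
  have hsum := sum_EK (p := p) (K := K) κ
  -- the right side is divisible by p^N
  have hR : (p : ℤ) ^ N ∣ ∑ c ∈ chs G p K, (-1 : ℤ) ^ c.card *
      ((Finset.univ.filter (fun x => ∀ U ∈ c, U ≤ κ x)).card : ℤ) := by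
    refine Finset.dvd_sum fun c hc => Dvd.dvd.mul_left ?_ _
    rw [← Nat.cast_pow, Int.natCast_dvd_natCast]
    by_cases hcV : ∀ U ∈ c, U ≤ V
    · -- the subgroup W0 of V
      obtain ⟨W, hW, hWc⟩ : ∃ W : Subgroup V, W ≠ ⊤ ∧
          ∀ f : Fin N → (V →* Multiplicative (ZMod p)),
            (∀ U ∈ c, U ≤ κ f) ↔ ∀ i, f i ∈ perp p W := by
        rcases c.eq_empty_or_nonempty with rfl | hne
        · refine ⟨⊥, ?_, ?_⟩
          · intro h
            have h1 : Nat.card (⊥ : Subgroup V) = Nat.card (⊤ : Subgroup V) := by rw [h]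
            rw [Subgroup.card_bot, Subgroup.card_top, hV] at h1
            have : 1 < p ^ v := Nat.one_lt_pow (by omega) hp.one_lt
            omega
          · intro f
            simp only [Finset.notMem_empty, false_implies, implies_true, true_iff]
            intro i w hw
            rw [Subgroup.mem_bot] at hw
            rw [hw, map_one]
        · obtain ⟨U, hU, hmax⟩ := chain_top hc hne
          refine ⟨U.subgroupOf V, ?_, ?_⟩
          · intro h
            rw [Subgroup.subgroupOf_eq_top] at h
            have hUV : U = V := le_antisymm (hcV U hU) h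
            obtain ⟨k, hk, hUk⟩ := (mem_chs.mp hc).2 U hU
            rw [hUV, hV] at hUk
            have := Nat.pow_right_injective hp.two_le hUk
            exact hv (this ▸ hk)
          · intro f
            constructor
            · intro h i w hw
              have h1 : (w : G) ∈ κ f := h U hU hw
              rw [hκ, Subgroup.mem_map] at h1
              obtain ⟨y, hy, hyw⟩ := h1
              have : y = w := Subtype.ext hyw
              rw [← this]
              exact (mem_kerAll f y).mp hy i
            · intro h U' hU' x hx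
              have hxU : x ∈ U := hmax U' hU' hx
              have hxV : x ∈ V := hcV U hU hxU
              rw [hκ, Subgroup.mem_map]
              refine ⟨⟨x, hxV⟩, ?_, rfl⟩
              rw [mem_kerAll]
              intro i
              exact h i ⟨x, hxV⟩ hxU
      have h1 : (Finset.univ.filter (fun x => ∀ U ∈ c, U ≤ κ x)).card =
          (Nat.card (perp p W)) ^ N := by
        rw [Finset.filter_congr (fun f _ => hWc f), ← Fintype.card_subtype,
          ← Nat.card_eq_fintype_card,
          Nat.card_congr (Equiv.subtypePiEquivPi (p := fun _ a => a ∈ perp p W))]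
        rw [Nat.card_pi]
        simp
      rw [h1]
      exact pow_dvd_pow_of_dvd (dvd_card_perp hV W hW) N
    · suffices h0 : (Finset.univ.filter (fun x => ∀ U ∈ c, U ≤ κ x)).card = 0 by
        rw [h0]; exact dvd_zero _
      rw [Finset.card_eq_zero, Finset.filter_eq_empty_iff]
      intro f _ h
      apply hcV
      intro U hU
      refine (h U hU).trans ?_
      rw [hκ]
      exact Subgroup.map_subtype_le _
  -- regroup the left side by kernels
  have hL : ∑ f, EK p K (κ f) = ∑ W : Subgroup V,
      ((Finset.univ.filter (fun f : Fin N → (V →* Multiplicative (ZMod p)) =>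
        kerAll f = W)).card : ℤ) * EK p K (W.map V.subtype) := by
    rw [← Finset.sum_fiberwise (s := Finset.univ)
      (g := fun f : Fin N → (V →* Multiplicative (ZMod p)) => kerAll f)]
    refine Finset.sum_congr rfl fun W _ => ?_
    rw [Finset.sum_congr rfl (g := fun _ => EK p K (W.map V.subtype))]
    · rw [Finset.sum_const, nsmul_eq_mul]
    · intro f hf
      rw [Finset.mem_filter] at hf
      show EK p K ((kerAll f).map V.subtype) = _
      rw [hf.2]
  rw [← hsum, hL] at hR
  rw [← Finset.add_sum_erase _ _ (Finset.mem_univ (⊤ : Subgroup V))] at hR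
  have hrest : (p : ℤ) ^ N ∣ ∑ W ∈ Finset.univ.erase (⊤ : Subgroup V),
      ((Finset.univ.filter (fun f : Fin N → (V →* Multiplicative (ZMod p)) =>
        kerAll f = W)).card : ℤ) * EK p K (W.map V.subtype) := by
    refine Finset.dvd_sum fun W hW => ?_
    have hWt : W ≠ ⊤ := (Finset.mem_erase.mp hW).1
    have hPG : IsPGroup p V := IsPGroup.iff_card.mpr ⟨v, hV⟩
    obtain ⟨m, hm⟩ := IsPGroup.iff_card.mp (hPG.to_subgroup W)
    have hmv : m < v := by
      have h1 : Nat.card W < Nat.card V := by
        refine lt_of_le_of_ne (Nat.le_of_dvd Nat.card_pos (Subgroup.card_subgroup_dvd_card W)) ?_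
        intro h
        exact hWt (Subgroup.eq_top_of_card_eq W h)
      rw [hm, hV] at h1
      exact (Nat.pow_lt_pow_iff_right hp.one_lt).mp h1
    have hidx : W.index = p ^ (v - m) := by
      have h1 := W.card_mul_index
      rw [hm, hV] at h1
      have h2 : p ^ v = p ^ m * p ^ (v - m) := by
        rw [← pow_add]; congr 1; omega
      rw [h2] at h1
      exact Nat.eq_of_mul_eq_mul_left (pow_pos hp.pos _) h1
    have h1 := dvd_card_kerAll W (j := v - m) (by omega) hidx N
    have h2 := ih m hmv (W.map V.subtype) (by
      rw [← hm]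
      exact Nat.card_congr (W.equivMapOfInjective _ V.subtype_injective).symm.toEquiv)
    have h3 := card_filter_le_aux K hv (j := v - m) (by omega) (by omega)
    have h4 : v - (v - m) = m := by omega
    rw [h4] at h3
    have h5 : (p : ℤ) ^ N ∣ (p : ℤ) ^ (v - m - 1) * (p : ℤ) ^ (K.filter (· ≤ m)).card := by
      rw [← pow_add]
      exact pow_dvd_pow _ h3
    refine h5.trans (mul_dvd_mul ?_ h2)
    rw [← Nat.cast_pow, Int.natCast_dvd_natCast]
    exact h1
  have htop := (Int.dvd_add_left hrest).mp hR
  have hone : (Finset.univ.filter (fun f : Fin N → (V →* Multiplicative (ZMod p)) =>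
        kerAll f = ⊤)).card = 1 := by
    rw [Finset.card_eq_one]
    refine ⟨1, ?_⟩
    ext f
    simp only [Finset.mem_filter, Finset.mem_univ, true_and, Finset.mem_singleton]
    constructor
    · intro h
      funext i
      ext x
      have hx : x ∈ kerAll f := by rw [h]; trivial
      have := (mem_kerAll f x).mp hx i
      rw [this]; rfl
    · rintro rfl
      ext x
      rw [mem_kerAll]
      simp
  rw [hone] at htop
  have hmap : (⊤ : Subgroup V).map V.subtype = V := by
    rw [← MonoidHom.range_eq_map, Subgroup.range_subtype]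
  rw [hmap] at htop
  simpa using htop

end Pool.Agent.Helper99
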